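import Pool.Graph.R_pool_sql_team_668148b0.Helper172.HS.Main
import Pool.Graph.R_pool_sql_team_668148b0.Helper174.LusinNovikov

/-!
Hypersmoothness along countable-to-one maps with weak finite index.
-/

set_option autoImplicit false

open MeasureTheory Set

namespace Pool.Agent.KS6_90.HSW

/-- The intersection of the kernel of a countable-to-one Borel function with a Borel equivalence
relation is the kernel of a Borel function. -/
theorem smooth_inter {X : Type*} [TopologicalSpace X] [PolishSpace X] [MeasurableSpace X]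
    [BorelSpace X] (h : X → ℝ) (hh : Measurable h) (hc : ∀ t, {x | h x = t}.Countable)
    (F : X → X → Prop) (hF : Equivalence F) (hFm : MeasurableSet {p : X × X | F p.1 p.2}) :
    ∃ g : X → ℝ, Measurable g ∧ ∀ x y, g x = g y ↔ h x = h y ∧ F x y := by
  classical
  have hR : MeasurableSet {p : ℝ × X | h p.2 = p.1} :=
    measurableSet_eq_fun (hh.comp measurable_snd) measurable_fst
  obtain ⟨G, hG1, hG2, hG3⟩ := Pool.Agent.Helper174.LusinNovikov.lusin_novikov hR hc
  -- the Borel sets on which `h` is injective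
  have hXk : ∀ k, MeasurableSet {x | (h x, x) ∈ G k} := fun k =>
    (hh.prodMk measurable_id) (hG1 k)
  have hcov : ∀ x, ∃ k, (h x, x) ∈ G k := fun x => by
    have : (h x, x) ∈ ⋃ n, G n := by
      rw [hG2]
      exact rfl
    exact mem_iUnion.1 this
  have hinjk : ∀ k x y, (h x, x) ∈ G k → (h y, y) ∈ G k → h x = h y → x = y := by
    intro k x y hx hy hxy
    rw [hxy] at hx
    exact hG3 k _ _ _ hx hy
  have hA : ∀ k, MeasurableSet {x | ∃ y, (h y, y) ∈ G k ∧ h y = h x ∧ F y x} := by
    intro k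
    have e : {x | ∃ y, (h y, y) ∈ G k ∧ h y = h x ∧ F y x} =
        Prod.snd '' {p : X × X | (h p.1, p.1) ∈ G k ∧ h p.1 = h p.2 ∧ F p.1 p.2} := by
      ext x
      constructor
      · rintro ⟨y, hy⟩
        exact ⟨(y, x), hy, rfl⟩
      · rintro ⟨⟨y, x'⟩, hy, rfl⟩
        exact ⟨y, hy⟩
    rw [e]
    refine MeasurableSet.image_of_measurable_injOn ?_ measurable_snd ?_
    · refine MeasurableSet.inter (measurable_fst (hXk k)) (MeasurableSet.inter ?_ hFm)
      exact measurableSet_eq_fun (hh.comp measurable_fst) (hh.comp measurable_snd)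
    · rintro ⟨y, x⟩ ⟨h1, h2, h3⟩ ⟨y', x'⟩ ⟨h1', h2', h3'⟩ hxx
      have hxx : x = x' := hxx
      subst hxx
      have : y = y' := hinjk k y y' h1 h1' (h2.trans h2'.symm)
      rw [this]
  let c : X → ℕ → Bool := fun x k => decide (∃ y, (h y, y) ∈ G k ∧ h y = h x ∧ F y x)
  have hcm : Measurable c := by
    refine measurable_pi_iff.2 fun k => ?_
    refine measurable_to_bool ?_
    have e : (fun x => c x k) ⁻¹' {true} = {x | ∃ y, (h y, y) ∈ G k ∧ h y = h x ∧ F y x} := by
      ext x
      simp [c]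
    rw [e]
    exact hA k
  have hemb := measurableEmbedding_embeddingReal (ℝ × (ℕ → Bool))
  refine ⟨fun x => embeddingReal (ℝ × (ℕ → Bool)) (h x, c x),
    hemb.measurable.comp (hh.prodMk hcm), fun x y => ?_⟩
  constructor
  · intro hxy
    have h1 := hemb.injective hxy
    rw [Prod.mk.injEq] at h1
    refine ⟨h1.1, ?_⟩
    obtain ⟨k, hk⟩ := hcov x
    have h2 : c x k = true := decide_eq_true ⟨x, hk, rfl, hF.refl x⟩
    rw [h1.2] at h2
    obtain ⟨z, hz1, hz2, hz3⟩ := of_decide_eq_true h2
    have : z = x := hinjk k z x hz1 hk (hz2.trans h1.1.symm)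
    rw [this] at hz3
    exact hz3
  · rintro ⟨h1, h2⟩
    have h3 : c x = c y := by
      funext k
      apply decide_eq_decide.2
      constructor
      · rintro ⟨z, hz1, hz2, hz3⟩
        exact ⟨z, hz1, hz2.trans h1, hF.trans hz3 h2⟩
      · rintro ⟨z, hz1, hz2, hz3⟩
        exact ⟨z, hz1, hz2.trans h1.symm, hF.trans hz3 (hF.symm h2)⟩
    show embeddingReal _ (h x, c x) = embeddingReal _ (h y, c y)
    rw [h1, h3]

/-- The main theorem, for kernels of real functions. -/
theorem main {X : Type*} [TopologicalSpace X] [PolishSpace X] [MeasurableSpace X]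
    [BorelSpace X] (f : ℕ → X → ℝ) (hf : ∀ n, Measurable (f n))
    (hfm : ∀ n x y, f n x = f n y → f (n + 1) x = f (n + 1) y)
    (hcount : ∀ x, {y | ∃ n, f n x = f n y}.Countable)
    (F : X → X → Prop) (hF : Equivalence F) (hFm : MeasurableSet {p : X × X | F p.1 p.2})
    (hfin : ∀ x, ∃ s : Finset X, ∀ y, F x y → ∃ z ∈ s, ∃ n, f n z = f n y) :
    ∃ g : ℕ → X → ℝ, (∀ n, Measurable (g n)) ∧
      (∀ n x y, g n x = g n y → g (n + 1) x = g (n + 1) y) ∧
      ∀ x y, F x y ↔ ∃ n, g n x = g n y := by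
  classical
  have hmono : ∀ n k x y, f n x = f n y → f (n + k) x = f (n + k) y := by
    intro n k x y h
    induction k with
    | zero => exact h
    | succ k ih => exact hfm _ _ _ ih
  have hex : ∀ n, ∃ g : X → ℝ, Measurable g ∧ ∀ x y, g x = g y ↔ f n x = f n y ∧ F x y := by
    intro n
    refine smooth_inter (f n) (hf n) (fun t => ?_) F hF hFm
    rcases {x | f n x = t}.eq_empty_or_nonempty with h | ⟨x, hx⟩
    · rw [h]
      exact countable_empty
    · have hx : f n x = t := hx
      refine (hcount x).mono fun y hy => ?_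
      have hy : f n y = t := hy
      exact (⟨n, hx.trans hy.symm⟩ : ∃ m, f m x = f m y)
  choose g hg hgf using hex
  refine Pool.Agent.Helper172.HS.main g F hg ?_ hF hFm ?_ ?_
  · intro n x y h
    have h1 := (hgf n x y).1 h
    exact (hgf (n + 1) x y).2 ⟨hfm n x y h1.1, h1.2⟩
  · rintro x y ⟨n, hn⟩
    exact ((hgf n x y).1 hn).2
  · intro x
    obtain ⟨s, hs⟩ := hfin x
    -- representatives inside the class of `x`
    let r : X → X := fun z => if h : ∃ y, F x y ∧ ∃ n, f n z = f n y then h.choose else x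
    refine ⟨s.image r, fun y hy => ?_⟩
    obtain ⟨z, hz, n, hn⟩ := hs y hy
    have h : ∃ y, F x y ∧ ∃ n, f n z = f n y := ⟨y, hy, n, hn⟩
    have hr : r z = h.choose := dif_pos h
    obtain ⟨h1, m, hm⟩ := h.choose_spec
    refine ⟨r z, Finset.mem_image_of_mem r hz, n + m, ?_⟩
    rw [hr]
    refine (hgf _ _ _).2 ⟨?_, hF.trans (hF.symm h1) hy⟩
    have h2 := hmono n m _ _ hn
    have h3 := hmono m n _ _ hm
    rw [Nat.add_comm m n] at h3
    exact h3.symm.trans h2

end Pool.Agent.KS6_90.HSW
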